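import Pool.Agent.Lib.MP_a57f84_gt.RMain

/-! A metacompact zero-dimensional Tychonoff space that is neither an open nor a pseudo-open
compact image of a paracompact Hausdorff space. -/

namespace Pool.Agent.Results.MP_a57f84_gt.TychonoffNotImage

universe u

/-- Every open cover has a point-finite open refinement. -/
def Metacompact (Y : Type) [TopologicalSpace Y] : Prop :=
  ∀ 𝒰 : Set (Set Y), (∀ U ∈ 𝒰, IsOpen U) → ⋃₀ 𝒰 = Set.univ →
    ∃ 𝒱 : Set (Set Y), (∀ V ∈ 𝒱, IsOpen V) ∧ ⋃₀ 𝒱 = Set.univ ∧ (∀ V ∈ 𝒱, ∃ U ∈ 𝒰, V ⊆ U) ∧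
      ∀ y : Y, {V ∈ 𝒱 | y ∈ V}.Finite

theorem result : ∃ (Y : Type) (_ : TopologicalSpace Y), T2Space Y ∧ T35Space Y ∧
    TopologicalSpace.IsTopologicalBasis {s : Set Y | IsClopen s} ∧ Metacompact Y ∧
    ∀ (X : Type u) [TopologicalSpace X] [T2Space X] [ParacompactSpace X] (f : X → Y),
      ¬(Continuous f ∧ Function.Surjective f ∧ (∀ y, IsCompact (f ⁻¹' {y})) ∧
        (IsOpenMap f ∨
          ∀ (y : Y) (U : Set X), IsOpen U → f ⁻¹' {y} ⊆ U → y ∈ interior (f '' U))) := by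
  refine ⟨Pool.Agent.Lib.MP_a57f84_gt.R.Y, inferInstance, inferInstance, inferInstance,
    Pool.Agent.Lib.MP_a57f84_gt.R.basis_clopen, Pool.Agent.Lib.MP_a57f84_gt.R.pointFinite_Y,
    fun _ _ _ _ f h => Pool.Agent.Lib.MP_a57f84_gt.R.not_image f h.1 ?_ h.2.2.1⟩
  refine h.2.2.2.elim (fun ho y U hU hy => ?_) id
  obtain ⟨x, rfl⟩ := h.2.1 y
  rw [(ho U hU).interior_eq]
  exact ⟨x, hy rfl, rfl⟩

end Pool.Agent.Results.MP_a57f84_gt.TychonoffNotImage
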